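import Mathlib
import Pool.Agent.H.MP_72f8f6_ag.Ring

namespace Pool.Agent.Results.MP_72f8f6_ag.NotContained

open MvPolynomial

/-- the conductor `L :_R J` of the ideal generated by `u 0, ..., u (m-1)` -/
def conductor {R : Type} [CommRing R] {m : ℕ} (u : Fin m → R) : Set R :=
  {r | ∀ P : MvPolynomial (Fin m) R,
    aeval (fun j => Polynomial.C (u j) * Polynomial.X) P = 0 →
      C r * P ∈ Ideal.span {l | ∃ a : Fin m → R, ∑ i, a i * u i = 0 ∧ l = ∑ i, C (a i) * X i}}

open Pool.Agent.H.MP_72f8f6_ag in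
theorem result : ∃ (R : Type) (_ : CommRing R) (m : ℕ) (u : Fin m → R) (f : R),
    IsNoetherianRing R ∧
    (∀ j : ℕ, (Ideal.span (Set.range u) ^ j).colon {f} = Ideal.span (Set.range u) ^ j) ∧
    ∃ x ∈ conductor (Fin.cons f u : Fin (m + 1) → R),
      ¬ ∃ c ∈ conductor u, ∃ r : R, x = c + r * f := by
  refine ⟨A, inferInstance, 2, ![e1, e2], f, noeth, colon, g, fun P hP => ?_, ?_⟩
  · refine upper _ (fun r s t h => Ideal.subset_span ?_) P hP
    refine ⟨![r, s, t], ?_, ?_⟩
    · simpa [Fin.sum_univ_three] using h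
    · simp [Fin.sum_univ_three]
  · rintro ⟨c, hc, r, h⟩
    have h1 := hc (X 0 * X 0) (by
      simp only [map_mul, aeval_X, Matrix.cons_val_zero]
      rw [mul_mul_mul_comm, ← Polynomial.C_mul, show e1 * e1 = 0 by ext <;> simp [e1], map_zero,
        zero_mul])
    have h2 : eval₂Hom pr ![f, g] (C c * (X 0 * X 0)) = 0 := by
      refine (show Ideal.span _ ≤ RingHom.ker (eval₂Hom pr ![f, g]) from ?_) h1
      rw [Ideal.span_le]
      rintro _ ⟨a, ha, rfl⟩
      have h3 := congrArg A.c ha
      have h4 := congrArg A.d ha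
      simp [Fin.sum_univ_two, e1, e2] at h3 h4
      simp only [SetLike.mem_coe, RingHom.mem_ker, Fin.sum_univ_two, map_add, map_mul,
        eval₂Hom_C, eval₂Hom_X']
      ext <;> simp [pr, f, g, h3]
      linarith
    simp only [map_mul, eval₂Hom_C, eval₂Hom_X'] at h2
    have h3 := congrArg A.b h2
    have h4 := congrArg A.b h
    simp [pr, f, g] at h3 h4
    omega

end Pool.Agent.Results.MP_72f8f6_ag.NotContained
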